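import Mathlib
import Pool.Agent.R820.ES.Step2

/-!
# A locally compact space of type `ω₁` with levels: the inductive step
-/

set_option autoImplicit false
set_option linter.unusedSectionVars false
set_option linter.unusedVariables false

namespace Pool.Agent.R820.WF

open Set
open Pool.Agent.Helper639.ForceCH (Om countable_Iio exists_bound)
open Pool.Agent.R820.QC (Diamond exists_gt_image isClub_closure countable_Iio' exists_bound_set)
open Pool.Agent.R820.ES (exists_rec exists_guess_pair unbounded_of_not_countable exists_enum)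

/-- the data at one point: its neighbourhoods and the promised levels -/
abbrev Dat : Type := (ℕ → Set Om) × Set ℕ

/-- neighbourhoods -/
def nb (f : Om → Dat) (x : Om) (m : ℕ) : Set Om := (f x).1 m

/-- the promise -/
def pr (f : Om → Dat) (x : Om) : Set ℕ := (f x).2

/-- finite unions of neighbourhoods -/
def Sm (f : Om → Dat) (Φ : Finset Om) : Set Om := ⋃ β ∈ Φ, nb f β 0

variable (lev : Om → ℕ) (AA : Om → Set Om)

/-- what is required at stage `γ` -/
structure Q (γ : Om) (f : Om → Dat) : Prop where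
  shape : ∃ W : ℕ → Set Om,
    (∀ m, nb f γ m = {γ} ∪ ⋃ j, ⋃ (_ : m ≤ j), W j) ∧
    (∀ j, W j = ∅ ∨ ∃ β < γ, ∃ m, W j = nb f β m) ∧
    (∀ β < γ, ∃ j₀, ∀ j ≥ j₀, Disjoint (W j) (nb f β 0)) ∧
    (∀ j, ∀ x ∈ W j, lev x ≤ lev γ) ∧
    (∀ i ≤ γ, ∀ n ∈ pr f i, n ≤ lev γ → ∀ m, ∃ j ≥ m,
      (W j ∩ (AA i ∩ {x | lev x = n})).Nonempty) ∧
    ((∀ x ∈ AA γ, lev x ≤ lev γ) →
      (∀ Φ : Finset Om, (∀ β ∈ Φ, β < γ) → ¬ (AA γ ⊆ Sm f Φ)) →
      ∀ m, ∃ j ≥ m, (W j ∩ AA γ).Nonempty)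
  pres : ∀ i ≤ γ, ∀ n ∈ pr f i, ∀ Φ : Finset Om, (∀ β ∈ Φ, β ≤ γ) →
    ¬ (AA i ∩ {x | lev x = n} ⊆ Sm f Φ)
  prom : ∀ n, (∀ Φ : Finset Om, (∀ β ∈ Φ, β < γ) → ¬ (AA γ ∩ {x | lev x = n} ⊆ Sm f Φ)) →
    n ∈ pr f γ

lemma nb_congr {f g : Om → Dat} {x : Om} (h : f x = g x) (m : ℕ) : nb f x m = nb g x m := by
  simp only [nb, h]

lemma pr_congr {f g : Om → Dat} {x : Om} (h : f x = g x) : pr f x = pr g x := by
  simp only [pr, h]

lemma Sm_congr {f g : Om → Dat} {Φ : Finset Om} (h : ∀ x ∈ Φ, f x = g x) : Sm f Φ = Sm g Φ := by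
  simp only [Sm]
  refine iUnion₂_congr fun β hβ => ?_
  rw [nb_congr (h β hβ)]

lemma Q_congr {γ : Om} {f g : Om → Dat} (h : ∀ x ≤ γ, f x = g x) (hQ : Q lev AA γ f) :
    Q lev AA γ g := by
  obtain ⟨W, h1, h2, h3, h4, h5, h6⟩ := hQ.shape
  refine ⟨⟨W, ?_, ?_, ?_, h4, ?_, ?_⟩, ?_, ?_⟩
  · intro m
    rw [← nb_congr (h γ le_rfl)]
    exact h1 m
  · intro j
    rcases h2 j with h2 | ⟨β, hβ, m, hm⟩
    · exact Or.inl h2
    · exact Or.inr ⟨β, hβ, m, by rw [← nb_congr (h β hβ.le)]; exact hm⟩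
  · intro β hβ
    rw [← nb_congr (h β hβ.le)]
    exact h3 β hβ
  · intro i hi n hn
    rw [← pr_congr (h i hi)] at hn
    exact h5 i hi n hn
  · intro a1 a2
    refine h6 a1 fun Φ hΦ => ?_
    rw [Sm_congr fun x hx => h x (hΦ x hx).le]
    exact a2 Φ hΦ
  · intro i hi n hn Φ hΦ
    rw [← pr_congr (h i hi)] at hn
    rw [← Sm_congr fun x hx => h x (hΦ x hx)]
    exact hQ.pres i hi n hn Φ hΦ
  · intro n hn
    rw [← pr_congr (h γ le_rfl)]
    apply hQ.prom
    intro Φ hΦ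
    rw [Sm_congr fun x hx => h x (hΦ x hx).le]
    exact hn Φ hΦ

/-! ### The space on an initial segment `D` -/

section facts

variable {lev AA} {f : Om → Dat} {D : Set Om} (hD : ∀ x ∈ D, ∀ y < x, y ∈ D)
  (H : ∀ x ∈ D, Q lev AA x f)
include hD H

lemma mem_nb {x : Om} (hx : x ∈ D) (m : ℕ) : x ∈ nb f x m := by
  obtain ⟨W, h1, -⟩ := (H x hx).shape
  rw [h1]
  exact Or.inl rfl

lemma nb_anti {x : Om} (hx : x ∈ D) {m n : ℕ} (h : m ≤ n) : nb f x n ⊆ nb f x m := by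
  obtain ⟨W, h1, -⟩ := (H x hx).shape
  rw [h1, h1]
  apply union_subset_union_right
  apply iUnion_subset
  intro j
  apply iUnion_subset
  intro hj
  exact subset_iUnion₂_of_subset j (h.trans hj) subset_rfl

lemma nb_sub {x : Om} (hx : x ∈ D) (m : ℕ) : nb f x m ⊆ Iic x := by
  induction x using (wellFounded_lt (α := Om)).induction generalizing m with
  | _ x ih =>
    obtain ⟨W, h1, h2, -⟩ := (H x hx).shape
    rw [h1]
    apply union_subset
    · simp
    · apply iUnion_subset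
      intro j
      apply iUnion_subset
      intro hj
      rcases h2 j with h | ⟨β, hβ, m', h⟩
      · rw [h]
        exact empty_subset _
      · rw [h]
        exact (ih β hβ (hD x hx β hβ) m').trans (Iic_subset_Iic.2 hβ.le)

lemma nb_lev {x : Om} (hx : x ∈ D) (m : ℕ) : ∀ y ∈ nb f x m, lev y ≤ lev x := by
  obtain ⟨W, h1, h2, h3, h4, -⟩ := (H x hx).shape
  intro y hy
  rw [h1] at hy
  rcases hy with hy | hy
  · rw [mem_singleton_iff.1 hy]
  · obtain ⟨j, hj⟩ := mem_iUnion.1 hy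
    obtain ⟨hmj, hj⟩ := mem_iUnion.1 hj
    exact h4 j y hj

lemma nb_open {x : Om} (hx : x ∈ D) (m : ℕ) : ∀ y ∈ nb f x m, ∃ m', nb f y m' ⊆ nb f x m := by
  induction x using (wellFounded_lt (α := Om)).induction generalizing m with
  | _ x ih =>
    obtain ⟨W, h1, h2, -⟩ := (H x hx).shape
    intro y hy
    rw [h1] at hy
    rcases hy with hy | hy
    · rw [mem_singleton_iff.1 hy]
      exact ⟨m, subset_rfl⟩
    · obtain ⟨j, hj⟩ := mem_iUnion.1 hy
      obtain ⟨hmj, hj⟩ := mem_iUnion.1 hj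
      rcases h2 j with h | ⟨β, hβ, m', h⟩
      · rw [h] at hj
        exact absurd hj (by simp)
      · rw [h] at hj
        obtain ⟨m2, hm2⟩ := ih β hβ (hD x hx β hβ) m' y hj
        refine ⟨m2, hm2.trans ?_⟩
        rw [h1, ← h]
        exact fun z hz => Or.inr (mem_iUnion₂.2 ⟨j, hmj, hz⟩)

lemma nb_disj_lt {x y : Om} (hx : x ∈ D) (hyx : y < x) :
    ∃ m, Disjoint (nb f y 0) (nb f x m) := by
  obtain ⟨W, h1, h2, h3, -⟩ := (H x hx).shape
  obtain ⟨j0, hj0⟩ := h3 y hyx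
  refine ⟨j0, ?_⟩
  rw [h1, disjoint_union_right]
  constructor
  · rw [disjoint_singleton_right]
    intro h
    exact absurd (nb_sub hD H (hD x hx y hyx) 0 h) (not_le.2 hyx)
  · rw [disjoint_iUnion_right]
    intro j
    rw [disjoint_iUnion_right]
    intro hj
    exact (hj0 j hj).symm

lemma nb_closed {x : Om} (hx : x ∈ D) (m : ℕ) : ∀ y ∈ D, y ∉ nb f x m →
    ∃ m', Disjoint (nb f y m') (nb f x m) := by
  induction x using (wellFounded_lt (α := Om)).induction generalizing m with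
  | _ x ih =>
    intro y hyD hy
    rcases lt_trichotomy y x with hyx | hyx | hyx
    · obtain ⟨W, h1, h2, h3, -⟩ := (H x hx).shape
      obtain ⟨j0, hj0⟩ := h3 y hyx
      have key : ∀ j, m ≤ j → ∃ m', Disjoint (nb f y m') (W j) := by
        intro j hj
        rcases h2 j with h | ⟨β, hβ, m', h⟩
        · exact ⟨0, by rw [h]; exact disjoint_empty _⟩
        · rw [h]
          apply ih β hβ (hD x hx β hβ) m' y hyD
          intro hcon
          apply hy
          rw [h1]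
          exact Or.inr (mem_iUnion₂.2 ⟨j, hj, h ▸ hcon⟩)
      choose! g hg using key
      let M := (Finset.range j0).sup g
      refine ⟨M, ?_⟩
      rw [h1, disjoint_union_right]
      constructor
      · rw [disjoint_singleton_right]
        intro h
        exact absurd (nb_sub hD H hyD M h) (not_le.2 hyx)
      · rw [disjoint_iUnion_right]
        intro j
        rw [disjoint_iUnion_right]
        intro hj
        rcases lt_or_ge j j0 with h | h
        · exact (hg j hj).mono_left (nb_anti hD H hyD (Finset.le_sup (Finset.mem_range.2 h)))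
        · exact ((hj0 j h).mono_right (nb_anti hD H hyD (Nat.zero_le M))).symm
    · exact absurd (hyx ▸ mem_nb hD H hx m) hy
    · obtain ⟨m', hm'⟩ := nb_disj_lt hD H hyD hyx
      exact ⟨m', (hm'.mono_left (nb_anti hD H hx (Nat.zero_le m))).symm⟩

lemma nb_sep {x y : Om} (hx : x ∈ D) (hy : y ∈ D) (hxy : x ≠ y) :
    ∃ m m', Disjoint (nb f x m) (nb f y m') := by
  rcases lt_or_gt_of_ne hxy with h | h
  · obtain ⟨m, hm⟩ := nb_disj_lt hD H hy h
    exact ⟨0, m, hm⟩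
  · obtain ⟨m, hm⟩ := nb_disj_lt hD H hx h
    exact ⟨m, 0, hm.symm⟩

lemma cl_union {K K' : Set Om} {y : Om} (hy : y ∈ D)
    (h : ∃ m, Disjoint (nb f y m) K) (h' : ∃ m, Disjoint (nb f y m) K') :
    ∃ m, Disjoint (nb f y m) (K ∪ K') := by
  obtain ⟨m, hm⟩ := h
  obtain ⟨m', hm'⟩ := h'
  exact ⟨max m m', disjoint_union_right.2
    ⟨hm.mono_left (nb_anti hD H hy (le_max_left _ _)),
      hm'.mono_left (nb_anti hD H hy (le_max_right _ _))⟩⟩

lemma Sm_closed {Φ : Finset Om} (hΦ : ∀ β ∈ Φ, β ∈ D) {y : Om} (hy : y ∈ D) (hy' : y ∉ Sm f Φ) :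
    ∃ m, Disjoint (nb f y m) (Sm f Φ) := by
  classical
  induction Φ using Finset.induction_on with
  | empty => exact ⟨0, by simp [Sm]⟩
  | insert a Φ ha ih =>
    have h1 : Sm f (insert a Φ) = nb f a 0 ∪ Sm f Φ := by
      simp [Sm]
    rw [h1] at hy' ⊢
    have h2 : y ∉ nb f a 0 := fun h => hy' (Or.inl h)
    have h4 : y ∉ Sm f Φ := fun h => hy' (Or.inr h)
    have haD := hΦ a (Finset.mem_insert_self _ _)
    exact cl_union hD H hy (nb_closed hD H haD 0 y hy h2)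
      (ih (fun β hβ => hΦ β (Finset.mem_insert_of_mem hβ)) h4)

end facts

/-- Choice of a sequence of points which leaves all finite unions of neighbourhoods. -/
lemma exists_pick {f : Om → Dat} {γ : Om} (g : ℕ → Om) (hg : ∀ j, g j < γ) (X : ℕ → Set Om)
    (hXs : ∀ j, X j ⊆ Iio γ)
    (hX : ∀ j, ∀ Φ : Finset Om, (∀ β ∈ Φ, β < γ) → ¬ (X j ⊆ Sm f Φ)) :
    ∃ (c : ℕ → Om) (Φ : ℕ → Finset Om), (∀ j, ∀ β ∈ Φ j, β < γ) ∧ (∀ j, g j ∈ Φ j) ∧
      (∀ i j, i ≤ j → Φ i ⊆ Φ j) ∧ (∀ i j, i < j → c i ∈ Φ j) ∧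
      ∀ j, c j ∈ X j ∧ c j ∉ Sm f (Φ j) := by
  classical
  have h1 : ∀ j (Φ : {Φ : Finset Om // ∀ β ∈ Φ, β < γ}), ∃ c, c ∈ X j ∧ c ∉ Sm f Φ.1 := by
    intro j Φ
    have := hX j Φ.1 Φ.2
    rw [not_subset] at this
    exact this
  choose p hp using h1
  let st : ℕ → {Φ : Finset Om // ∀ β ∈ Φ, β < γ} := fun n => Nat.rec
    ⟨{g 0}, by intro β hβ; rw [Finset.mem_singleton] at hβ; rw [hβ]; exact hg 0⟩
    (fun j Φ => ⟨insert (p j Φ) (insert (g (j + 1)) Φ.1), by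
      intro β hβ
      rw [Finset.mem_insert, Finset.mem_insert] at hβ
      rcases hβ with hβ | hβ | hβ
      · rw [hβ]
        exact hXs j (hp j Φ).1
      · rw [hβ]
        exact hg _
      · exact Φ.2 β hβ⟩) n
  have hst : ∀ j, (st (j + 1)).1 = insert (p j (st j)) (insert (g (j + 1)) (st j).1) :=
    fun j => rfl
  have hmono : ∀ i j, i ≤ j → (st i).1 ⊆ (st j).1 := by
    intro i j hij
    induction j, hij using Nat.le_induction with
    | base => exact subset_rfl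
    | succ j hj ih =>
      rw [hst]
      exact ih.trans ((Finset.subset_insert _ _).trans (Finset.subset_insert _ _))
  refine ⟨fun j => p j (st j), fun j => (st j).1, fun j => (st j).2, ?_, hmono, ?_, fun j => ?_⟩
  · intro j
    cases j with
    | zero => exact Finset.mem_singleton_self _
    | succ j =>
      change g (j + 1) ∈ (st (j + 1)).1
      rw [hst]
      exact Finset.mem_insert_of_mem (Finset.mem_insert_self _ _)
  · intro i j hij
    apply hmono (i + 1) j hij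
    change p i (st i) ∈ (st (i + 1)).1
    rw [hst]
    exact Finset.mem_insert_self _ _
  · exact hp j (st j)

lemma Sm_mono {f : Om → Dat} {Φ Ψ : Finset Om} (h : Φ ⊆ Ψ) : Sm f Φ ⊆ Sm f Ψ :=
  biUnion_subset_biUnion_left h

lemma subset_Sm {f : Om → Dat} {Φ : Finset Om} {β : Om} (h : β ∈ Φ) :
    nb f β 0 ⊆ Sm f Φ :=
  subset_biUnion_of_mem (u := fun β => nb f β 0) h

section step

variable {lev AA} {f : Om → Dat} {γ : Om}

lemma hDIio (γ : Om) : ∀ x ∈ Iio γ, ∀ y < x, y ∈ Iio γ := fun _ hx _ hy => lt_trans hy hx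

/-- facts about the promises below `γ` -/
lemma promise (H : ∀ x ∈ Iio γ, Q lev AA x f) {i : Om} (hi : i < γ) {n : ℕ}
    (hn : n ∈ pr f i) (Φ : Finset Om) (hΦ : ∀ β ∈ Φ, β < γ) :
    ¬ (AA i ∩ {x | lev x = n} ⊆ Sm f Φ) := by
  classical
  have h1 : ∃ δ < γ, i ≤ δ ∧ ∀ β ∈ Φ, β ≤ δ := by
    have h2 : (insert i Φ).Nonempty := ⟨i, Finset.mem_insert_self _ _⟩
    refine ⟨(insert i Φ).max' h2, ?_, Finset.le_max' _ _ (Finset.mem_insert_self _ _),
      fun β hβ => Finset.le_max' _ _ (Finset.mem_insert_of_mem hβ)⟩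
    rw [Finset.max'_lt_iff]
    intro β hβ
    rcases Finset.mem_insert.1 hβ with h | h
    · rw [h]; exact hi
    · exact hΦ β h
  obtain ⟨δ, hδ, hδ1, hδ2⟩ := h1
  exact (H δ hδ).pres i hδ1 n hn Φ hδ2

theorem step (hAA : ∀ γ, AA γ ⊆ Iio γ) (H : ∀ x ∈ Iio γ, Q lev AA x f) :
    ∃ t : Dat, Q lev AA γ (Function.update f γ t) := by
  classical
  have hD := hDIio γ
  let p : Set ℕ := {n | ∀ Φ : Finset Om, (∀ β ∈ Φ, β < γ) → ¬ (AA γ ∩ {x | lev x = n} ⊆ Sm f Φ)}
  let Pq : Set (Om × ℕ) := {q | (q.1 < γ ∧ q.2 ∈ pr f q.1) ∨ (q.1 = γ ∧ q.2 ∈ p)}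
  let XX : Om × ℕ → Set Om := fun q => AA q.1 ∩ {x | lev x = q.2}
  have hPqle : ∀ q ∈ Pq, q.1 ≤ γ := by
    rintro q (h | h)
    · exact h.1.le
    · exact h.1.le
  have hPqc : Pq.Countable := by
    have h1 : (Iic γ).Countable := by
      rw [← Iio_insert]
      exact (countable_Iio' γ).insert γ
    refine (h1.prod (countable_univ (α := ℕ))).mono ?_
    intro q hq
    exact mem_prod.2 ⟨hPqle q hq, mem_univ _⟩
  have hPq : ∀ q ∈ Pq, ∀ Φ : Finset Om, (∀ β ∈ Φ, β < γ) → ¬ (XX q ⊆ Sm f Φ) := by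
    rintro q (⟨h, h'⟩ | ⟨h, h'⟩) Φ hΦ
    · exact promise H h h' Φ hΦ
    · have h2 : XX q = AA γ ∩ {x | lev x = q.2} := by
        simp only [XX, h]
      rw [h2]
      exact h' Φ hΦ
  have hPqs : ∀ q ∈ Pq, XX q ⊆ Iio γ := fun q hq =>
    inter_subset_left.trans ((hAA q.1).trans (Iio_subset_Iio (hPqle q hq)))
  -- targets
  let T : Set (Set Om) := (XX '' {q ∈ Pq | q.2 ≤ lev γ}) ∪
    {A | A = AA γ ∧ (∀ x ∈ AA γ, lev x ≤ lev γ) ∧
      ∀ Φ : Finset Om, (∀ β ∈ Φ, β < γ) → ¬ (AA γ ⊆ Sm f Φ)}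
  let T2 : Set (Set Om) := T ∪ XX '' Pq
  have hTc : T.Countable := by
    refine Countable.union ((hPqc.mono (sep_subset _ _)).image _) ?_
    exact (countable_singleton (AA γ)).mono fun A hA => hA.1
  have hT2c : T2.Countable := hTc.union (hPqc.image _)
  have hTs : ∀ A ∈ T2, A ⊆ Iio γ := by
    rintro A ((⟨q, hq, rfl⟩ | hA) | ⟨q, hq, rfl⟩)
    · exact hPqs q hq.1
    · rw [hA.1]
      exact hAA γ
    · exact hPqs q hq
  have hTn : ∀ A ∈ T2, ∀ Φ : Finset Om, (∀ β ∈ Φ, β < γ) → ¬ (A ⊆ Sm f Φ) := by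
    rintro A ((⟨q, hq, rfl⟩ | hA) | ⟨q, hq, rfl⟩)
    · exact hPq q hq.1
    · rw [hA.1]
      exact hA.2.2
    · exact hPq q hq
  have hTl : ∀ A ∈ T, ∀ x ∈ A, lev x ≤ lev γ := by
    rintro A (⟨q, hq, rfl⟩ | hA) x hx
    · have h1 : lev x = q.2 := hx.2
      rw [h1]
      exact hq.2
    · rw [hA.1] at hx
      exact hA.2.1 x hx
  have hTne : ∀ A ∈ T2, (Iio γ).Nonempty := by
    intro A hA
    by_contra hcon
    rw [not_nonempty_iff_eq_empty] at hcon
    apply hTn A hA ∅ (by simp)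
    intro x hx
    have := hTs A hA hx
    rw [hcon] at this
    exact absurd this (by simp)
  -- the neighbourhoods
  obtain ⟨W, hW1, hW2, hW3, hW4, hW5⟩ : ∃ W : ℕ → Set Om,
      (∀ j, W j = ∅ ∨ ∃ β < γ, ∃ m, W j = nb f β m) ∧
      (∀ β < γ, ∃ j₀, ∀ j ≥ j₀, Disjoint (W j) (nb f β 0)) ∧
      (∀ j, ∀ x ∈ W j, lev x ≤ lev γ) ∧
      (∀ A ∈ T, ∀ m, ∃ j ≥ m, (W j ∩ A).Nonempty) ∧
      (∀ q ∈ Pq, ∀ Φ : Finset Om, (∀ β ∈ Φ, β < γ) →
        ∃ e, e < γ ∧ e ∈ XX q ∧ e ∉ Sm f Φ ∧ ∀ j, e ∉ W j) := by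
    rcases T.eq_empty_or_nonempty with h1 | h1
    · refine ⟨fun _ => ∅, fun j => Or.inl rfl, fun β _ => ⟨0, fun _ _ => empty_disjoint _⟩,
        by simp, by rw [h1]; simp, ?_⟩
      intro q hq Φ hΦ
      have := hPq q hq Φ hΦ
      rw [not_subset] at this
      obtain ⟨e, he, he'⟩ := this
      exact ⟨e, hPqs q hq he, he, he', by simp⟩
    have h2 : T2.Nonempty := h1.mono subset_union_left
    obtain ⟨g, hg⟩ := (countable_Iio' γ).exists_eq_range (hTne _ h2.some_mem)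
    have hg' : ∀ j, g j < γ := fun j => by
      have : g j ∈ Iio γ := by rw [hg]; exact mem_range_self j
      exact this
    obtain ⟨e1, he1, he1'⟩ := exists_enum hTc h1
    obtain ⟨e2, he2, he2'⟩ := exists_enum hT2c h2
    let e : ℕ → Set Om := fun j => if j % 2 = 0 then e1 (j / 2) else e2 (j / 2)
    have he : ∀ j, e j ∈ T2 := by
      intro j
      simp only [e]
      split_ifs
      · exact Or.inl (he1 _)
      · exact he2 _
    obtain ⟨c, Φ, hc1, hc2, hc3, hc4, hc5⟩ := exists_pick (f := f) g hg' e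
      (fun j => hTs _ (he j)) (fun j Φ hΦ => hTn _ (he j) Φ hΦ)
    have hcγ : ∀ j, c j < γ := fun j => hTs _ (he j) (hc5 j).1
    have h3 : ∀ j, ∃ m, Disjoint (nb f (c (2 * j)) m) (Sm f (Φ (2 * j))) := fun j =>
      Sm_closed hD H (fun β hβ => hc1 (2 * j) β hβ) (hcγ (2 * j)) (hc5 (2 * j)).2
    choose M hM using h3
    have he' : ∀ j, e (2 * j) = e1 j := fun j => by simp [e]
    refine ⟨fun j => nb f (c (2 * j)) (M j), fun j => Or.inr ⟨_, hcγ _, _, rfl⟩, ?_, ?_, ?_, ?_⟩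
    · intro β hβ
      have : β ∈ range g := hg ▸ hβ
      obtain ⟨i, rfl⟩ := this
      refine ⟨i, fun j hj => (hM j).mono_right ?_⟩
      exact subset_Sm (hc3 i (2 * j) (by omega) (hc2 i))
    · intro j x hx
      refine (nb_lev hD H (hcγ _) _ x hx).trans ?_
      have h4 := (hc5 (2 * j)).1
      rw [he'] at h4
      exact hTl _ (he1 j) _ h4
    · intro A hA m
      obtain ⟨j, hj, hj'⟩ := he1' A hA m
      refine ⟨j, hj, c (2 * j), mem_nb hD H (hcγ _) _, ?_⟩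
      have h4 := (hc5 (2 * j)).1
      rw [he', hj'] at h4
      exact h4
    · intro q hq Ψ hΨ
      have h3 : ∃ N, ∀ j ≥ N, Ψ ⊆ Φ j := by
        have h4 : ∀ β ∈ Ψ, ∃ i, g i = β := fun β hβ => by
          have : β ∈ range g := hg ▸ hΨ β hβ
          exact this
        choose! ind hind using h4
        refine ⟨Ψ.sup ind, fun j hj β hβ => ?_⟩
        rw [← hind β hβ]
        exact hc3 (ind β) j ((Finset.le_sup (f := ind) hβ).trans hj) (hc2 _)
      obtain ⟨N, hN⟩ := h3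
      obtain ⟨j, hj, hj'⟩ := he2' (XX q) (Or.inr ⟨q, hq, rfl⟩) N
      have h4 : e (2 * j + 1) = XX q := by
        have h5 : (2 * j + 1) % 2 = 1 := by omega
        have h6 : (2 * j + 1) / 2 = j := by omega
        simp [e, h5, h6, hj']
      have h5 := (hc5 (2 * j + 1)).1
      rw [h4] at h5
      refine ⟨c (2 * j + 1), hcγ _, h5, ?_, ?_⟩
      · intro hcon
        exact (hc5 (2 * j + 1)).2 (Sm_mono (hN _ (by omega)) hcon)
      · intro j' hcon
        rcases lt_or_ge (2 * j') (2 * j + 1) with h | h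
        · apply (hc5 (2 * j + 1)).2
          exact subset_Sm (hc4 _ _ h) (nb_anti hD H (hcγ _) (Nat.zero_le _) hcon)
        · have h' : 2 * j + 1 < 2 * j' := by omega
          exact disjoint_left.1 (hM j') hcon
            (subset_Sm (hc4 _ _ h') (mem_nb hD H (hcγ _) 0))
  -- assembly
  let N : ℕ → Set Om := fun m => {γ} ∪ ⋃ j, ⋃ (_ : m ≤ j), W j
  let F' : Om → Dat := Function.update f γ (N, p)
  have hne : ∀ x, x < γ → F' x = f x := fun x hx => Function.update_of_ne hx.ne _ _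
  have hγ : F' γ = (N, p) := Function.update_self _ _ _
  have hnb : ∀ m, nb F' γ m = N m := fun m => by simp only [nb, hγ]
  have hpr : pr F' γ = p := by simp only [pr, hγ]
  have hpr' : ∀ i ≤ γ, ∀ n ∈ pr F' i, (i, n) ∈ Pq := by
    intro i hi n hn
    rcases hi.lt_or_eq with h | h
    · exact Or.inl ⟨h, by rw [pr_congr (hne i h)] at hn; exact hn⟩
    · subst h
      exact Or.inr ⟨rfl, by rw [← hpr]; exact hn⟩
  have hSm : ∀ Φ : Finset Om, (∀ β ∈ Φ, β < γ) → Sm F' Φ = Sm f Φ := fun Φ hΦ =>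
    Sm_congr fun x hx => hne x (hΦ x hx)
  refine ⟨(N, p), ⟨⟨W, hnb, ?_, ?_, hW3, ?_, ?_⟩, ?_, ?_⟩⟩
  · intro j
    rcases hW1 j with h | ⟨β, hβ, m, h⟩
    · exact Or.inl h
    · exact Or.inr ⟨β, hβ, m, by rw [h]; exact (nb_congr (hne β hβ) m).symm⟩
  · intro β hβ
    have h1 := nb_congr (hne β hβ) 0
    simp only [F'] at h1
    rw [h1]
    exact hW2 β hβ
  · intro i hi n hn hn' m
    exact hW4 (XX (i, n)) (Or.inl ⟨(i, n), ⟨hpr' i hi n hn, hn'⟩, rfl⟩) m
  · intro a1 a2 m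
    refine hW4 (AA γ) (Or.inr ⟨rfl, a1, fun Φ hΦ => ?_⟩) m
    have := a2 Φ hΦ
    rwa [hSm Φ hΦ] at this
  · intro i hi n hn Φ hΦ hcon
    obtain ⟨e, h1, h2, h3, h4⟩ := hW5 (i, n) (hpr' i hi n hn) (Φ.erase γ) (by
      intro β hβ
      exact lt_of_le_of_ne (hΦ β (Finset.mem_of_mem_erase hβ)) (Finset.ne_of_mem_erase hβ))
    have h6 := hcon h2
    simp only [Sm, mem_iUnion] at h6
    obtain ⟨β, hβ, h6⟩ := h6
    rcases (hΦ β hβ).lt_or_eq with h | h
    · apply h3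
      have h7 : nb F' β 0 = nb f β 0 := nb_congr (hne β h) 0
      exact subset_Sm (Finset.mem_erase.2 ⟨h.ne, hβ⟩) (h7 ▸ h6)
    · subst h
      have h7 : e ∈ nb F' β 0 := h6
      rw [hnb] at h7
      rcases h7 with h7 | h7
      · exact absurd (mem_singleton_iff.1 h7) h1.ne
      · obtain ⟨j, hj⟩ := mem_iUnion.1 h7
        obtain ⟨_, hj⟩ := mem_iUnion.1 hj
        exact h4 j hj
  · intro n hn
    change n ∈ pr F' γ
    rw [hpr]
    intro Φ hΦ
    have := hn Φ hΦ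
    rwa [hSm Φ hΦ] at this

end step

end Pool.Agent.R820.WF
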