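import Mathlib
import Pool.Agent.R820.WF.Step

/-!
# A weakly first countable compact space with a bad open subspace, from diamond
-/

set_option autoImplicit false
set_option linter.unusedSectionVars false
set_option linter.unusedVariables false

namespace Pool.Agent.R820.WF

open Set Filter Topology
open Pool.Agent.Helper639.ForceCH (Om countable_Iio exists_bound)
open Pool.Agent.R820.QC (Diamond exists_gt_image isClub_closure countable_Iio' exists_bound_set)
open Pool.Agent.R820.ES (exists_rec exists_guess_pair unbounded_of_not_countable exists_enum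
  not_countable_of_unbounded)

theorem exists_f {lev : Om → ℕ} {AA : Om → Set Om} (hAA : ∀ γ, AA γ ⊆ Iio γ) :
    ∃ f : Om → Dat, ∀ γ, Q lev AA γ f := by
  classical
  obtain ⟨f, hf⟩ := exists_rec (T := Dat) (fun _ => ∅, ∅)
    (fun γ f t => Q lev AA γ (Function.update f γ t)) (by
      intro α f g t hfg hQ
      refine Q_congr lev AA ?_ hQ
      intro x hx
      rcases hx.lt_or_eq with h | h
      · rw [Function.update_of_ne h.ne, Function.update_of_ne h.ne, hfg x h]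
      · subst h
        rw [Function.update_self, Function.update_self]) (by
      intro α f hf
      apply step hAA
      intro x hx
      have := hf x hx
      rwa [Function.update_eq_self] at this)
  refine ⟨f, fun γ => ?_⟩
  have := hf γ
  rwa [Function.update_eq_self] at this

/-- the topology -/
def top (f : Om → Dat) : TopologicalSpace Om where
  IsOpen U := ∀ x ∈ U, ∃ m, ∀ m' ≥ m, nb f x m' ⊆ U
  isOpen_univ := fun _ _ => ⟨0, fun _ _ => subset_univ _⟩
  isOpen_inter := by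
    intro U V hU hV x hx
    obtain ⟨m, hm⟩ := hU x hx.1
    obtain ⟨m', hm'⟩ := hV x hx.2
    exact ⟨max m m', fun k hk => subset_inter (hm k ((le_max_left _ _).trans hk))
      (hm' k ((le_max_right _ _).trans hk))⟩
  isOpen_sUnion := by
    intro S hS x hx
    obtain ⟨U, hU, hxU⟩ := hx
    obtain ⟨m, hm⟩ := hS U hU x hxU
    exact ⟨m, fun k hk => (hm k hk).trans (subset_sUnion_of_mem hU)⟩

lemma hDu : ∀ x ∈ (univ : Set Om), ∀ y < x, y ∈ (univ : Set Om) := fun _ _ _ _ => mem_univ _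

/-- closed in terms of the neighbourhoods -/
def Cl (f : Om → Dat) (K : Set Om) : Prop := ∀ x, x ∉ K → ∃ m, Disjoint (nb f x m) K

/-- open in terms of the neighbourhoods -/
def Op (f : Om → Dat) (U : Set Om) : Prop := ∀ x ∈ U, ∃ m, nb f x m ⊆ U

section main

variable {lev : Om → ℕ} {AA : Om → Set Om} {f : Om → Dat} (H : ∀ γ, Q lev AA γ f)
include H

lemma isOpen_iff' {U : Set Om} : IsOpen[top f] U ↔ Op f U := by
  constructor
  · intro h x hx
    obtain ⟨m, hm⟩ := h x hx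
    exact ⟨m, hm m le_rfl⟩
  · intro h x hx
    obtain ⟨m, hm⟩ := h x hx
    exact ⟨m, fun k hk => (nb_anti hDu (fun x _ => H x) (mem_univ x) hk).trans hm⟩

lemma isClosed_iff' {K : Set Om} : IsClosed[top f] K ↔ Cl f K := by
  rw [← @isOpen_compl_iff Om K (top f), isOpen_iff' H]
  simp only [Op, Cl, mem_compl_iff, subset_compl_iff_disjoint_right]

lemma Sm_bound {Φ : Finset Om} {b x : Om} (hΦ : ∀ β ∈ Φ, β ≤ b) (hx : x ∈ Sm f Φ) : x ≤ b := by
  simp only [Sm, mem_iUnion] at hx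
  obtain ⟨β, hβ, hx⟩ := hx
  exact (nb_sub hDu (fun x _ => H x) (mem_univ β) 0 hx : x ≤ β).trans (hΦ β hβ)

variable (hguess : ∀ (C : Set Om) (n : ℕ) (K : Om → Prop), QC.IsClub K →
      ∃ γ, K γ ∧ AA γ = C ∩ Iio γ ∧ lev γ = n)

include hguess in
lemma limit {A : Set Om} {n : ℕ} (hA : ¬ (A ∩ {x | lev x = n}).Countable) :
    ∃ γ, ∀ β, γ ≤ β → n ≤ lev β → ∀ m,
      (nb f β m ∩ (A ∩ {x | lev x = n}) ∩ Iio β).Nonempty := by
  classical
  have h1 : ∀ b : Om, ∃ c, c ∈ A ∩ {x | lev x = n} ∧ b < c := fun b => by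
    obtain ⟨c, hc, hc'⟩ := unbounded_of_not_countable hA b
    exact ⟨c, hc, hc'⟩
  choose h hh1 hh2 using h1
  obtain ⟨γ, ⟨⟨b0, hb0⟩, hγ⟩, hγ1, -⟩ := hguess A 0 _ (isClub_closure h)
  have hp : n ∈ pr f γ := by
    apply (H γ).prom
    intro Φ hΦ hcon
    obtain ⟨b, hb, hb'⟩ : ∃ b < γ, ∀ β ∈ Φ, β ≤ b := by
      have h2 : (insert b0 Φ).Nonempty := ⟨b0, Finset.mem_insert_self _ _⟩
      refine ⟨(insert b0 Φ).max' h2, ?_, fun β hβ =>
        Finset.le_max' _ _ (Finset.mem_insert_of_mem hβ)⟩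
      rw [Finset.max'_lt_iff]
      intro β hβ
      rcases Finset.mem_insert.1 hβ with h | h
      · rw [h]; exact hb0
      · exact hΦ β h
    have h3 : h b < γ := hγ b hb
    have h4 := hcon ⟨by rw [hγ1]; exact ⟨(hh1 b).1, h3⟩, (hh1 b).2⟩
    exact absurd (hh2 b) (not_lt.2 (Sm_bound H hb' h4))
  refine ⟨γ, fun β hβ hn m => ?_⟩
  obtain ⟨W, h1, h2, h3, h4, h5, -⟩ := (H β).shape
  obtain ⟨j, hj, x, hx, hx'⟩ := h5 γ hβ n hp hn m
  refine ⟨x, ⟨?_, ?_⟩, ?_⟩
  · rw [h1]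
    exact Or.inr (mem_iUnion₂.2 ⟨j, hj, hx⟩)
  · rw [hγ1] at hx'
    exact ⟨hx'.1.1, hx'.2⟩
  · rcases h2 j with h | ⟨δ, hδ, m', h⟩
    · rw [h] at hx
      exact absurd hx (by simp)
    · rw [h] at hx
      exact lt_of_le_of_lt (nb_sub hDu (fun x _ => H x) (mem_univ δ) m' hx) hδ

lemma isClub_Ioi (a : Om) : QC.IsClub fun γ => a < γ := by
  constructor
  · intro b
    obtain ⟨c, hc⟩ := exists_gt (max a b)
    exact ⟨c, (le_max_right _ _).trans_lt hc, (le_max_left _ _).trans_lt hc⟩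
  · rintro c ⟨b, hb⟩ h
    obtain ⟨d, hd, hd'⟩ := h b hb
    exact hd'.trans hd.2

include hguess in
lemma countable_of_closed {C : Set Om} (hC : Cl f C) {n : ℕ} (hn : ∀ x ∈ C, lev x < n) :
    C.Countable := by
  by_contra hcon
  have h1 : ∃ k, ¬ (C ∩ {x | lev x = k}).Countable := by
    by_contra h
    push Not at h
    apply hcon
    refine (countable_iUnion h).mono ?_
    intro x hx
    exact mem_iUnion.2 ⟨lev x, hx, rfl⟩
  obtain ⟨k, hk⟩ := h1
  obtain ⟨γ, hγ⟩ := limit H hguess hk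
  obtain ⟨β, hβ, -, hβ'⟩ := hguess ∅ (max n k) _ (isClub_Ioi H γ)
  have h2 : β ∈ C := by
    by_contra h2
    obtain ⟨m, hm⟩ := hC β h2
    obtain ⟨x, ⟨hx, hx'⟩, -⟩ := hγ β (le_of_lt hβ) (by rw [hβ']; exact le_max_right _ _) m
    exact disjoint_left.1 hm hx hx'.1
  have h3 := hn β h2
  rw [hβ'] at h3
  exact absurd h3 (not_lt.2 (le_max_left _ _))

include hguess in
lemma exists_cover {C : Set Om} (hC : Cl f C) {n : ℕ} (hn : ∀ x ∈ C, lev x < n) :
    ∃ Φ : Finset Om, C ⊆ Sm f Φ := by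
  by_contra hcon
  push Not at hcon
  obtain ⟨c0, hc0⟩ := exists_bound_set (countable_of_closed H hguess hC hn)
  obtain ⟨γ, hγ, hγ1, hγ2⟩ := hguess C n _ (isClub_Ioi H c0)
  have hCγ : AA γ = C := by
    rw [hγ1]
    exact inter_eq_left.2 fun c hc => (hc0 c hc).trans hγ
  obtain ⟨W, h1, h2, h3, h4, h5, h6⟩ := (H γ).shape
  have h7 := h6 (by
    intro x hx
    rw [hCγ] at hx
    rw [hγ2]
    exact (hn x hx).le) (by
    intro Φ hΦ
    rw [hCγ]
    exact hcon Φ)
  rw [hCγ] at h7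
  have h8 : γ ∈ C := by
    by_contra h8
    obtain ⟨m, hm⟩ := hC γ h8
    obtain ⟨j, hj, x, hx, hx'⟩ := h7 m
    refine disjoint_left.1 hm ?_ hx'
    rw [h1]
    exact Or.inr (mem_iUnion₂.2 ⟨j, hj, hx⟩)
  exact absurd ((hc0 γ h8).trans hγ) (lt_irrefl _)

lemma isCompact_nb (x : Om) (m : ℕ) : @IsCompact Om (top f) (nb f x m) := by
  letI := top f
  induction x using (wellFounded_lt (α := Om)).induction generalizing m with
  | _ x ih =>
    obtain ⟨W, h1, h2, -⟩ := (H x).shape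
    rw [isCompact_iff_finite_subcover]
    intro ι U hU hcov
    have hx : x ∈ nb f x m := mem_nb hDu (fun x _ => H x) (mem_univ x) m
    obtain ⟨i0, hi0⟩ := mem_iUnion.1 (hcov hx)
    obtain ⟨m', hm'⟩ := (isOpen_iff' H).1 (hU i0) x hi0
    have h3 : ∀ j, m ≤ j → ∃ t : Finset ι, W j ⊆ ⋃ i ∈ t, U i := by
      intro j hj
      have h4 : IsCompact (W j) := by
        rcases h2 j with h | ⟨β, hβ, k, h⟩
        · rw [h]
          exact isCompact_empty
        · rw [h]
          exact ih β hβ k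
      refine isCompact_iff_finite_subcover.1 h4 U hU (Subset.trans ?_ hcov)
      rw [h1]
      exact fun z hz => Or.inr (mem_iUnion₂.2 ⟨j, hj, hz⟩)
    classical
    choose! t ht using h3
    refine ⟨insert i0 ((Finset.Ico m m').biUnion t), ?_⟩
    intro z hz
    rw [h1] at hz
    rw [Finset.set_biUnion_insert]
    rcases hz with hz | hz
    · rw [mem_singleton_iff.1 hz]
      exact Or.inl hi0
    · obtain ⟨j, hj⟩ := mem_iUnion.1 hz
      obtain ⟨hmj, hj⟩ := mem_iUnion.1 hj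
      rcases lt_or_ge j m' with h | h
      · right
        obtain ⟨i, hi⟩ := mem_iUnion.1 (ht j hmj hj)
        obtain ⟨hi', hi⟩ := mem_iUnion.1 hi
        exact mem_iUnion₂.2 ⟨i, Finset.mem_biUnion.2 ⟨j, Finset.mem_Ico.2 ⟨hmj, h⟩, hi'⟩, hi⟩
      · left
        apply hm'
        rw [h1]
        exact Or.inr (mem_iUnion₂.2 ⟨j, h, hj⟩)

end main

/-- The main theorem. -/
theorem main (hd : Diamond) : ∃ (X : Type) (_ : TopologicalSpace X) (S : Set X),
    CompactSpace X ∧ T2Space X ∧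
    (∃ B : X → ℕ → Set X, (∀ x n, x ∈ B x n) ∧ (∀ x n, B x (n + 1) ⊆ B x n) ∧
      ∀ U : Set X, IsOpen U ↔ ∀ x ∈ U, ∃ n, B x n ⊆ U) ∧
    IsOpen S ∧ ¬ S.Countable ∧
    (∀ C : Set X, IsClosed C → (S ∩ C).Countable ∨ (S \ C).Countable) ∧
    (∀ x ∈ S, ∃ U : Set X, IsOpen U ∧ x ∈ U ∧ U.Countable) ∧
    (∀ R ⊆ S, ¬ R.Countable → ∃ x ∈ R, ∀ U : Set X, IsOpen U → x ∈ U → (U ∩ (R \ {x})).Nonempty) ∧
    (∀ T ⊆ S, T.Countable → ∃ C : Set X, IsClosed C ∧ C ∩ T = ∅ ∧ (S \ C).Countable) := by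
  classical
  obtain ⟨AA, DD, hAA, hDD, hguess0⟩ := exists_guess_pair hd
  obtain ⟨em, hem⟩ := Pool.Agent.Helper639.ForceCH.exists_emb
  let lev : Om → ℕ := fun γ => sInf {n | em n ∈ DD γ}
  have hguess : ∀ (C : Set Om) (n : ℕ) (K : Om → Prop), QC.IsClub K →
      ∃ γ, K γ ∧ AA γ = C ∩ Iio γ ∧ lev γ = n := by
    intro C n K hK
    have hK' : QC.IsClub fun γ => K γ ∧ em n < γ := by
      constructor
      · intro a
        obtain ⟨b, hb, hb'⟩ := hK.1 (max a (em n))
        exact ⟨b, (le_max_left _ _).trans_lt hb, hb', (le_max_right _ _).trans_lt hb⟩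
      · intro a hne h
        refine ⟨hK.2 a hne fun b hb => ?_, ?_⟩
        · obtain ⟨c, hc, hc'⟩ := h b hb
          exact ⟨c, hc, hc'.1⟩
        · obtain ⟨b, hb⟩ := hne
          obtain ⟨c, hc, hc'⟩ := h b hb
          exact hc'.2.trans hc.2
    obtain ⟨γ, ⟨hγ, hγ'⟩, h1, h2⟩ := hguess0 C {em n} _ hK'
    refine ⟨γ, hγ, h1, ?_⟩
    have h3 : {k | em k ∈ DD γ} = {n} := by
      ext k
      rw [h2]
      simp only [mem_inter_iff, mem_singleton_iff, mem_Iio, mem_ofPred_eq]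
      constructor
      · rintro ⟨h, -⟩
        exact hem h
      · rintro rfl
        exact ⟨rfl, hγ'⟩
    simp only [lev, h3]
    simp
  obtain ⟨f, H⟩ := exists_f (lev := lev) (AA := AA) hAA
  letI := top f
  have hnbo : ∀ x m, IsOpen (nb f x m) := fun x m => (isOpen_iff' H).2 fun y hy =>
    nb_open hDu (fun x _ => H x) (mem_univ x) m y hy
  have hnbx : ∀ x m, x ∈ nb f x m := fun x m => mem_nb hDu (fun x _ => H x) (mem_univ x) m
  have hT2 : T2Space Om := by
    refine ⟨fun x y hxy => ?_⟩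
    obtain ⟨m, m', h⟩ := nb_sep hDu (fun x _ => H x) (mem_univ x) (mem_univ y) hxy
    exact ⟨_, _, hnbo x m, hnbo y m', hnbx x m, hnbx y m', h⟩
  have hcomp : ∀ (C : Set Om) (n : ℕ), IsClosed C → (∀ x ∈ C, lev x < n) → IsCompact C := by
    intro C n hC hn
    obtain ⟨Φ, hΦ⟩ := exists_cover H hguess ((isClosed_iff' H).1 hC) hn
    have h1 : IsCompact (Sm f Φ) := Φ.isCompact_biUnion fun β _ => isCompact_nb H β 0
    exact h1.of_isClosed_subset hC hΦ
  have hLC : WeaklyLocallyCompactSpace Om :=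
    ⟨fun x => ⟨nb f x 0, isCompact_nb H x 0, (hnbo x 0).mem_nhds (hnbx x 0)⟩⟩
  -- the level zero
  have hL0 : ∀ γ : Om, ∃ β, γ < β ∧ lev β = 0 := by
    intro γ
    obtain ⟨β, hβ, -, hβ'⟩ := hguess ∅ 0 _ (isClub_Ioi H γ)
    exact ⟨β, hβ, hβ'⟩
  let L : Set Om := {x | lev x = 0}
  have hLo : IsOpen L := (isOpen_iff' H).2 fun x hx => ⟨0, fun y hy => by
    have h1 := nb_lev hDu (fun x _ => H x) (mem_univ x) 0 y hy
    have h2 : lev x = 0 := hx
    have h3 : lev y = 0 := by omega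
    exact h3⟩
  have hlim : ∀ A ⊆ L, ¬ A.Countable → ∃ γ, ∀ β, γ ≤ β → ∀ U : Set Om, IsOpen U → β ∈ U →
      (U ∩ A ∩ Iio β).Nonempty := by
    intro A hA hA'
    have h1 : A ∩ {x | lev x = 0} = A := inter_eq_left.2 hA
    obtain ⟨γ, hγ⟩ := limit H hguess (A := A) (n := 0) (by rw [h1]; exact hA')
    refine ⟨γ, fun β hβ U hU hβU => ?_⟩
    obtain ⟨m, hm⟩ := (isOpen_iff' H).1 hU β hβU
    obtain ⟨x, ⟨hx, hx'⟩, hx2⟩ := hγ β hβ (Nat.zero_le _) m
    exact ⟨x, ⟨hm hx, hx'.1⟩, hx2⟩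
  let co : Om → OnePoint Om := fun x => (x : OnePoint Om)
  have hco : Function.Injective co := OnePoint.coe_injective
  refine ⟨OnePoint Om, inferInstance, co '' L, inferInstance, inferInstance, ?_, ?_, ?_, ?_, ?_,
    ?_, ?_⟩
  · refine ⟨fun z n => {w | (z = OnePoint.infty ∧ (w = OnePoint.infty ∨ ∃ x, w = co x ∧ n ≤ lev x)) ∨
      ∃ x, z = co x ∧ ∃ y ∈ nb f x n, w = co y}, ?_, ?_, ?_⟩
    · intro z n
      induction z using OnePoint.rec with
      | infty => exact Or.inl ⟨rfl, Or.inl rfl⟩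
      | coe x => exact Or.inr ⟨x, rfl, x, hnbx x n, rfl⟩
    · rintro z n w (⟨h1, h2 | ⟨x, h2, h3⟩⟩ | ⟨x, h1, y, h2, h3⟩)
      · exact Or.inl ⟨h1, Or.inl h2⟩
      · exact Or.inl ⟨h1, Or.inr ⟨x, h2, by omega⟩⟩
      · exact Or.inr ⟨x, h1, y, nb_anti hDu (fun x _ => H x) (mem_univ x) (Nat.le_succ n) h2, h3⟩
    · intro U
      rw [OnePoint.isOpen_def]
      constructor
      · rintro ⟨h1, h2⟩ z hz
        induction z using OnePoint.rec with
        | infty =>
          have h3 := h1 hz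
          obtain ⟨t, ht⟩ := h3.elim_finite_subcover (fun x : Om => nb f x 0) (fun x => hnbo x 0)
            (fun x _ => mem_iUnion.2 ⟨x, hnbx x 0⟩)
          refine ⟨t.sup lev + 1, ?_⟩
          rintro w (⟨-, h4 | ⟨x, h4, h5⟩⟩ | ⟨x, h4, -⟩)
          · rw [h4]
            exact hz
          · rw [h4]
            by_contra hcon
            have h6 : x ∈ ((fun x : Om => (x : OnePoint Om)) ⁻¹' U)ᶜ := hcon
            obtain ⟨y, hy⟩ := mem_iUnion.1 (ht h6)
            obtain ⟨hy', hy⟩ := mem_iUnion.1 hy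
            have h7 := nb_lev hDu (fun x _ => H x) (mem_univ y) 0 x hy
            have h8 : lev y ≤ t.sup lev := Finset.le_sup hy'
            omega
          · exact absurd h4 (OnePoint.infty_ne_coe x)
        | coe x =>
          obtain ⟨m, hm⟩ := (isOpen_iff' H).1 h2 x hz
          refine ⟨m, ?_⟩
          rintro w (⟨h4, -⟩ | ⟨x', h4, y, h5, h6⟩)
          · exact absurd h4 (OnePoint.coe_ne_infty x)
          · have h7 : x = x' := hco h4
            subst h7
            rw [h6]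
            exact hm h5
      · intro h
        have h2 : IsOpen ((fun x : Om => (x : OnePoint Om)) ⁻¹' U) := by
          refine (isOpen_iff' H).2 fun x hx => ?_
          obtain ⟨n, hn⟩ := h x hx
          exact ⟨n, fun y hy => hn (Or.inr ⟨x, rfl, y, hy, rfl⟩)⟩
        refine ⟨fun h1 => ?_, h2⟩
        obtain ⟨n, hn⟩ := h _ h1
        refine hcomp _ n h2.isClosed_compl fun x hx => ?_
        by_contra hcon
        exact hx (hn (Or.inl ⟨rfl, Or.inr ⟨x, rfl, not_lt.1 hcon⟩⟩))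
  · exact OnePoint.isOpen_image_coe.2 hLo
  · intro h
    have h1 : L.Countable := countable_of_injective_of_countable_image hco.injOn h
    refine not_countable_of_unbounded (S := L) (fun a => ?_) h1
    obtain ⟨b, hb, hb'⟩ := hL0 a
    exact ⟨b, hb', hb⟩
  · intro C hC
    by_cases h : (L ∩ co ⁻¹' C).Countable
    · left
      refine (h.image co).mono ?_
      rintro _ ⟨⟨x, hx, rfl⟩, hx'⟩
      exact ⟨x, ⟨hx, hx'⟩, rfl⟩
    · right
      obtain ⟨γ, hγ⟩ := hlim _ inter_subset_left h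
      refine ((countable_Iio' γ).image co).mono ?_
      rintro _ ⟨⟨x, hx, rfl⟩, hx'⟩
      refine ⟨x, ?_, rfl⟩
      by_contra hcon
      have hopen : IsOpen (co ⁻¹' Cᶜ) := hC.isOpen_compl.preimage OnePoint.continuous_coe
      obtain ⟨y, ⟨hy, hy'⟩, -⟩ := hγ x (not_lt.1 hcon) _ hopen hx'
      exact hy hy'.2
  · rintro _ ⟨x, hx, rfl⟩
    refine ⟨co '' nb f x 0, OnePoint.isOpen_image_coe.2 (hnbo x 0), ⟨x, hnbx x 0, rfl⟩, ?_⟩
    refine Countable.image ?_ co
    refine Countable.mono (nb_sub hDu (fun x _ => H x) (mem_univ x) 0) ?_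
    rw [← Iio_insert]
    exact (countable_Iio' x).insert x
  · intro R hR hR'
    have h1 : ¬ (co ⁻¹' R).Countable := by
      intro h
      apply hR'
      refine (h.image co).mono ?_
      intro z hz
      obtain ⟨x, hx, rfl⟩ := hR hz
      exact ⟨x, hz, rfl⟩
    have h2 : co ⁻¹' R ⊆ L := by
      intro x hx
      obtain ⟨y, hy, hy'⟩ := hR hx
      have := hco hy'
      subst this
      exact hy
    obtain ⟨γ, hγ⟩ := hlim _ h2 h1
    obtain ⟨x, hx, hx'⟩ := unbounded_of_not_countable h1 γ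
    refine ⟨co x, hx, fun U hU hxU => ?_⟩
    obtain ⟨y, ⟨hy, hy'⟩, hy2⟩ := hγ x hx'.le (co ⁻¹' U)
      (hU.preimage OnePoint.continuous_coe) hxU
    exact ⟨co y, hy, hy', fun h => (ne_of_lt hy2) (hco h)⟩
  · intro T hT hT'
    have h1 : (co ⁻¹' T).Countable := hT'.preimage_of_injOn hco.injOn
    obtain ⟨γ, hγ⟩ := exists_bound_set h1
    have h2 : IsOpen (Iio γ) := by
      refine (isOpen_iff' H).2 fun x hx => ⟨0, fun y hy => ?_⟩
      have h3 : y ≤ x := nb_sub hDu (fun x _ => H x) (mem_univ x) 0 hy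
      exact lt_of_le_of_lt h3 hx
    refine ⟨(co '' Iio γ)ᶜ, (OnePoint.isOpen_image_coe.2 h2).isClosed_compl, ?_, ?_⟩
    · rw [eq_empty_iff_forall_notMem]
      rintro z ⟨hz, hz'⟩
      obtain ⟨x, hx, rfl⟩ := hT hz'
      exact hz ⟨x, hγ x hz', rfl⟩
    · refine ((countable_Iio' γ).image co).mono ?_
      rintro z ⟨-, hz⟩
      exact not_not.1 hz

end Pool.Agent.R820.WF
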