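import Mathlib

/-!
# Consequences: not `α`-realcompact, not Radon, not weakly `θ`-refinable
-/

set_option autoImplicit false
set_option linter.unusedSectionVars false
set_option linter.unusedVariables false

namespace Pool.Agent.R820.WF

open Set Filter Topology

/-- a filter in the lattice of closed subsets of `Z` -/
def IsClosedFilter {Z : Type} [TopologicalSpace Z] (𝓤 : Set (Set Z)) : Prop :=
  (∀ A ∈ 𝓤, IsClosed A) ∧ Set.univ ∈ 𝓤 ∧ ∅ ∉ 𝓤 ∧ (∀ A ∈ 𝓤, ∀ B ∈ 𝓤, A ∩ B ∈ 𝓤) ∧
    ∀ A ∈ 𝓤, ∀ B, IsClosed B → A ⊆ B → B ∈ 𝓤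

/-- a closed ultrafilter: a maximal filter in the lattice of closed sets -/
def IsClosedUltrafilter {Z : Type} [TopologicalSpace Z] (𝓤 : Set (Set Z)) : Prop :=
  IsClosedFilter 𝓤 ∧ ∀ 𝓥 : Set (Set Z), IsClosedFilter 𝓥 → 𝓤 ⊆ 𝓥 → 𝓥 ⊆ 𝓤

/-- no closed ultrafilter with the countable intersection property is free -/
def AlphaRealcompact (Z : Type) [TopologicalSpace Z] : Prop :=
  ∀ 𝓤 : Set (Set Z), IsClosedUltrafilter 𝓤 →
    (∀ 𝓒 ⊆ 𝓤, 𝓒.Countable → (⋂₀ 𝓒).Nonempty) → (⋂₀ 𝓤).Nonempty

/-- every finite Borel measure is inner regular with respect to compact sets -/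
def RadonSpace (X : Type) [TopologicalSpace X] : Prop :=
  ∀ μ : @MeasureTheory.Measure X (borel X), μ Set.univ < ⊤ →
    ∀ B : Set X, @MeasurableSet X (borel X) B →
      μ B = ⨆ K ∈ {K : Set X | IsCompact K ∧ K ⊆ B}, μ K

/-- every open cover has an open refinement split into countably many families such that each point
is in at least one and only finitely many members of one of the families -/
def WeaklyThetaRefinable (Z : Type) [TopologicalSpace Z] : Prop :=
  ∀ 𝓞 : Set (Set Z), (∀ U ∈ 𝓞, IsOpen U) → ⋃₀ 𝓞 = Set.univ →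
    ∃ 𝓥 : ℕ → Set (Set Z), (∀ n, ∀ V ∈ 𝓥 n, IsOpen V ∧ ∃ U ∈ 𝓞, V ⊆ U) ∧
      ∀ x, ∃ n, {V ∈ 𝓥 n | x ∈ V}.Nonempty ∧ {V ∈ 𝓥 n | x ∈ V}.Finite

variable {X : Type} [TopologicalSpace X] {S : Set X}

theorem not_alpha (hS : ¬ S.Countable)
    (h1 : ∀ C : Set X, IsClosed C → (S ∩ C).Countable ∨ (S \ C).Countable)
    (h2 : ∀ T ⊆ S, T.Countable → ∃ C : Set X, IsClosed C ∧ C ∩ T = ∅ ∧ (S \ C).Countable) :
    ¬ AlphaRealcompact S := by
  intro h
  let 𝓤 : Set (Set S) := {A | IsClosed A ∧ Aᶜ.Countable}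
  have hunc : ¬ (univ : Set S).Countable := by
    intro h
    apply hS
    have := h.image (Subtype.val)
    simpa using this
  have hF : IsClosedFilter 𝓤 := by
    refine ⟨fun A hA => hA.1, ⟨isClosed_univ, by simp⟩, ?_, ?_, ?_⟩
    · rintro ⟨-, h⟩
      rw [compl_empty] at h
      exact hunc h
    · rintro A ⟨hA, hA'⟩ B ⟨hB, hB'⟩
      refine ⟨hA.inter hB, ?_⟩
      rw [compl_inter]
      exact hA'.union hB'
    · rintro A ⟨hA, hA'⟩ B hB hAB
      exact ⟨hB, hA'.mono (compl_subset_compl.2 hAB)⟩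
  have hU : IsClosedUltrafilter 𝓤 := by
    refine ⟨hF, fun 𝓥 hV hUV A hA => ?_⟩
    refine ⟨hV.1 A hA, ?_⟩
    obtain ⟨C, hC, rfl⟩ := isClosed_induced_iff.1 (hV.1 A hA)
    rcases h1 C hC with h3 | h3
    · -- a countable closed set is disjoint from a member of the filter
      exfalso
      obtain ⟨E, hE, hE', hE2⟩ := h2 (S ∩ C) inter_subset_left h3
      have h4 : (Subtype.val ⁻¹' E : Set S) ∈ 𝓤 := by
        refine ⟨hE.preimage continuous_subtype_val, ?_⟩
        have : (Subtype.val ⁻¹' E : Set S)ᶜ = Subtype.val ⁻¹' (S \ E) := by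
          ext x
          simp
        rw [this]
        exact hE2.preimage_of_injOn Subtype.val_injective.injOn
      have h5 := hV.2.2.2.1 _ hA _ (hUV h4)
      have h6 : (Subtype.val ⁻¹' C : Set S) ∩ Subtype.val ⁻¹' E = ∅ := by
        rw [eq_empty_iff_forall_notMem]
        rintro x ⟨hx, hx'⟩
        have : x.1 ∈ E ∩ (S ∩ C) := ⟨hx', x.2, hx⟩
        rw [hE'] at this
        exact this
      rw [h6] at h5
      exact hV.2.2.1 h5
    · have : (Subtype.val ⁻¹' C : Set S)ᶜ = Subtype.val ⁻¹' (S \ C) := by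
        ext x
        simp
      rw [this]
      exact h3.preimage_of_injOn Subtype.val_injective.injOn
  obtain ⟨x, hx⟩ := h 𝓤 hU (by
    intro 𝓒 hC hC'
    by_contra hcon
    rw [not_nonempty_iff_eq_empty] at hcon
    apply hunc
    have h3 : (univ : Set S) = ⋃ A ∈ 𝓒, Aᶜ := by
      rw [← compl_empty, ← hcon, compl_sInter, sUnion_image]
    rw [h3]
    exact hC'.biUnion fun A hA => (hC hA).2)
  obtain ⟨E, hE, hE', hE2⟩ := h2 {x.1} (by simp) (countable_singleton _)
  have h4 : (Subtype.val ⁻¹' E : Set S) ∈ 𝓤 := by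
    refine ⟨hE.preimage continuous_subtype_val, ?_⟩
    have : (Subtype.val ⁻¹' E : Set S)ᶜ = Subtype.val ⁻¹' (S \ E) := by
      ext x
      simp
    rw [this]
    exact hE2.preimage_of_injOn Subtype.val_injective.injOn
  have h5 : x.1 ∈ E ∩ {x.1} := ⟨hx _ h4, rfl⟩
  rw [hE'] at h5
  exact h5

open Classical in
/-- the outer measure with value `0` on the sets `A` with `A ∩ S` countable and `1` otherwise -/
noncomputable def om (S : Set X) : MeasureTheory.OuterMeasure X where
  measureOf A := if (A ∩ S).Countable then 0 else 1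
  empty := by simp
  mono := by
    intro A B hAB
    split_ifs with h1 h2
    · exact le_rfl
    · exact bot_le
    · rename_i h2
      exact absurd (h2.mono (inter_subset_inter_left S hAB)) h1
    · exact le_rfl
  iUnion_nat := by
    intro A _
    split_ifs with h1
    · exact bot_le
    · have h2 : ∃ n, ¬ (A n ∩ S).Countable := by
        by_contra h
        push Not at h
        apply h1
        rw [iUnion_inter]
        exact countable_iUnion h
      obtain ⟨n, hn⟩ := h2
      refine le_trans ?_ (ENNReal.le_tsum n)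
      rw [if_neg hn]

theorem not_radon [T2Space X] (hSo : IsOpen S) (hS : ¬ S.Countable)
    (h1 : ∀ C : Set X, IsClosed C → (S ∩ C).Countable ∨ (S \ C).Countable)
    (h2 : ∀ x ∈ S, ∃ U : Set X, IsOpen U ∧ x ∈ U ∧ U.Countable) :
    ¬ RadonSpace X := by
  intro h
  classical
  letI : MeasurableSpace X := borel X
  have hb : BorelSpace X := ⟨rfl⟩
  have hle : borel X ≤ (om S).caratheodory := by
    apply MeasurableSpace.generateFrom_le
    intro U hU
    rw [MeasureTheory.OuterMeasure.isCaratheodory_iff_le]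
    intro T
    change (if (T ∩ U ∩ S).Countable then (0 : ENNReal) else 1) +
      (if ((T \ U) ∩ S).Countable then (0 : ENNReal) else 1) ≤
      if (T ∩ S).Countable then 0 else 1
    have h3 := h1 Uᶜ (IsOpen.isClosed_compl hU)
    have h4 : (T ∩ U ∩ S).Countable ∨ ((T \ U) ∩ S).Countable := by
      rcases h3 with h3 | h3
      · right
        refine h3.mono ?_
        rintro x ⟨⟨_, hx⟩, hx'⟩
        exact ⟨hx', hx⟩
      · left
        refine h3.mono ?_
        rintro x ⟨⟨_, hx⟩, hx'⟩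
        exact ⟨hx', not_not.2 hx⟩
    by_cases h5 : (T ∩ S).Countable
    · have h6 : (T ∩ U ∩ S).Countable := by
        refine h5.mono ?_
        intro x hx
        exact ⟨hx.1.1, hx.2⟩
      have h7 : ((T \ U) ∩ S).Countable := by
        refine h5.mono ?_
        intro x hx
        exact ⟨hx.1.1, hx.2⟩
      rw [if_pos h6, if_pos h7, if_pos h5]
      simp
    · rw [if_neg h5]
      rcases h4 with h4 | h4
      · rw [if_pos h4]
        split_ifs <;> simp
      · rw [if_pos h4]
        split_ifs <;> simp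
  let μ : MeasureTheory.Measure X := (om S).toMeasure hle
  have hμ : ∀ A : Set X, MeasurableSet A → μ A = if (A ∩ S).Countable then 0 else 1 :=
    fun A hA => MeasureTheory.toMeasure_apply _ _ hA
  have hfin : μ univ < ⊤ := by
    rw [hμ univ MeasurableSet.univ]
    split_ifs <;> simp
  have h3 := h μ hfin S hSo.measurableSet
  rw [hμ S hSo.measurableSet, inter_self, if_neg hS] at h3
  have h4 : ⨆ K ∈ {K : Set X | IsCompact K ∧ K ⊆ S}, μ K = 0 := by
    simp only [mem_ofPred_eq, ENNReal.iSup_eq_zero]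
    rintro K ⟨hK, hKS⟩
    have h5 : K.Countable := by
      refine hK.induction_on (p := fun s => s.Countable) countable_empty
        (fun s t hst ht => ht.mono hst) (fun s t hs ht => hs.union ht) fun x hx => ?_
      obtain ⟨U, hU, hxU, hUc⟩ := h2 x (hKS hx)
      exact ⟨U, mem_nhdsWithin_of_mem_nhds (hU.mem_nhds hxU), hUc⟩
    rw [hμ K hK.isClosed.measurableSet, if_pos (h5.mono inter_subset_left)]
  rw [h4] at h3
  exact one_ne_zero h3

theorem not_theta (hS : ¬ S.Countable)
    (h2 : ∀ x ∈ S, ∃ U : Set X, IsOpen U ∧ x ∈ U ∧ U.Countable)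
    (h3 : ∀ R ⊆ S, ¬ R.Countable → ∃ x ∈ R, ∀ U : Set X, IsOpen U → x ∈ U →
      (U ∩ (R \ {x})).Nonempty) :
    ¬ WeaklyThetaRefinable S := by
  classical
  intro h
  have hunc : ¬ (univ : Set S).Countable := by
    intro h
    apply hS
    have := h.image (Subtype.val)
    simpa using this
  obtain ⟨𝓥, hV, hx⟩ := h {U | IsOpen U ∧ U.Countable} (fun U hU => hU.1) (by
    rw [eq_univ_iff_forall]
    intro x
    obtain ⟨U, hU, hxU, hUc⟩ := h2 x.1 x.2
    exact ⟨Subtype.val ⁻¹' U, ⟨hU.preimage continuous_subtype_val,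
      hUc.preimage_of_injOn Subtype.val_injective.injOn⟩, hxU⟩)
  choose n hn1 hn2 using hx
  have h4 : ∃ p : ℕ × ℕ, ¬ {x : S | n x = p.1 ∧ {V ∈ 𝓥 (n x) | x ∈ V}.ncard = p.2}.Countable := by
    by_contra hcon
    push Not at hcon
    apply hunc
    refine (countable_iUnion hcon).mono ?_
    intro x _
    exact mem_iUnion.2 ⟨(n x, _), rfl, rfl⟩
  obtain ⟨⟨N, k⟩, hA⟩ := h4
  let A : Set S := {x : S | n x = N ∧ {V ∈ 𝓥 (n x) | x ∈ V}.ncard = k}
  change ¬ A.Countable at hA
  let M : S → Set (Set S) := fun x => {V ∈ 𝓥 N | x ∈ V}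
  let G : S → Set S := fun x => ⋂₀ M x
  have hMf : ∀ x ∈ A, (M x).Finite := by
    intro x hx
    have := hn2 x
    rw [hx.1] at this
    exact this
  have hMn : ∀ x ∈ A, (M x).Nonempty := by
    intro x hx
    have := hn1 x
    rw [hx.1] at this
    exact this
  have hMk : ∀ x ∈ A, (M x).ncard = k := by
    intro x hx
    have := hx.2
    rw [hx.1] at this
    exact this
  have hGo : ∀ x ∈ A, IsOpen (G x) := fun x hx =>
    (hMf x hx).isOpen_sInter fun V hV' => (hV N V hV'.1).1
  have hGx : ∀ x, x ∈ G x := fun x V hV => hV.2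
  have hGc : ∀ x ∈ A, (G x).Countable := by
    intro x hx
    obtain ⟨V, hV'⟩ := hMn x hx
    obtain ⟨-, U, hU, hVU⟩ := hV N V hV'.1
    exact hU.2.mono ((sInter_subset_of_mem hV').trans hVU)
  have hMeq : ∀ x ∈ A, ∀ y ∈ A, y ∈ G x → M y = M x := by
    intro x hx y hy hyx
    have hsub : M x ⊆ M y := fun V hV => ⟨hV.1, hyx V hV⟩
    exact (eq_of_subset_of_ncard_le hsub (by rw [hMk x hx, hMk y hy]) (hMf y hy)).symm
  have hne : Nonempty S := by
    by_contra h
    rw [not_nonempty_iff] at h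
    exact hunc (to_countable _)
  have hr : ∀ m ∈ M '' A, ∃ x ∈ A, M x = m := fun m hm => hm
  choose! r hr1 hr2 using hr
  let R : Set S := r '' (M '' A)
  have hRA : R ⊆ A := by
    rintro _ ⟨m, hm, rfl⟩
    exact hr1 m hm
  have hR : ¬ R.Countable := by
    intro hcon
    apply hA
    refine (hcon.biUnion fun x hx => hGc x (hRA hx)).mono ?_
    intro y hy
    have hm : M y ∈ M '' A := mem_image_of_mem M hy
    refine mem_iUnion₂.2 ⟨r (M y), mem_image_of_mem r hm, ?_⟩
    have h5 : G (r (M y)) = G y := by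
      simp only [G]
      rw [hr2 _ hm]
    rw [h5]
    exact hGx y
  have hRd : ∀ x ∈ R, ∀ y ∈ R, y ∈ G x → y = x := by
    intro x hx y hy hyx
    have h5 := hMeq x (hRA hx) y (hRA hy) hyx
    obtain ⟨m, hm, rfl⟩ := hx
    obtain ⟨m', hm', rfl⟩ := hy
    rw [hr2 m hm, hr2 m' hm'] at h5
    rw [h5]
  have hR' : ¬ (Subtype.val '' R).Countable := by
    intro hcon
    exact hR (countable_of_injective_of_countable_image Subtype.val_injective.injOn hcon)
  obtain ⟨_, ⟨x, hx, rfl⟩, hx'⟩ := h3 (Subtype.val '' R) (by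
    rintro _ ⟨y, -, rfl⟩
    exact y.2) hR'
  obtain ⟨U, hU, hU'⟩ := isOpen_induced_iff.1 (hGo x (hRA hx))
  have hxU : x.1 ∈ U := by
    have : x ∈ (Subtype.val ⁻¹' U : Set S) := by
      rw [hU']
      exact hGx x
    exact this
  obtain ⟨_, hy, ⟨y, hyR, rfl⟩, hne⟩ := hx' U hU hxU
  have hyG : y ∈ G x := by
    rw [← hU']
    exact hy
  exact hne (by rw [hRd x hx y hyR hyG]; rfl)

end Pool.Agent.R820.WF
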